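import Mathlib

set_option maxHeartbeats 4000000
set_option synthInstance.maxHeartbeats 400000

/-!
# Two structures over the algebraic numbers on a complex vector space with a basis

The tangent space `T_o X` of a Hermitian symmetric domain at a special point `o` is the direct sum of
lines which are rational for the geometric and for the arithmetic structure over the algebraic
numbers. So in suitable coordinates, indexed by a finite set `A`, the geometric structure is the set
of the vectors with algebraic coordinates, and the arithmetic structure is the set of the vectors `v`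
for which the numbers `lam a * v a` are algebraic, where the numbers `lam a` are given by periods.
-/

namespace Pool.Agent.Q50.HY

/-- The field of the algebraic numbers. -/
noncomputable abbrev Qbar : IntermediateField ℚ ℂ := algebraicClosure ℚ ℂ

variable {A : Type} [Fintype A]

/-- The geometric structure: the vectors with algebraic coordinates. -/
def geometric (A : Type) : Set (A → ℂ) := {v | ∀ a, v a ∈ Qbar}

/-- The arithmetic structure: the vectors `v` for which all `lam a * v a` are algebraic. -/
def arithmetic (lam : A → ℂ) : Set (A → ℂ) := {v | ∀ a, lam a * v a ∈ Qbar}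

/-- The complex subspace `W` is rational for the structure `S`: it is spanned by its elements
in `S`. -/
def IsRational (S : Set (A → ℂ)) (W : Submodule ℂ (A → ℂ)) : Prop :=
  W ≤ Submodule.span ℂ {v | v ∈ W ∧ v ∈ S}

/-- The assertion of Q1 for the point `z` and the subspace `V`: there is a subspace of `V` which
contains `z` and is rational for both structures. -/
def HasBiRational (lam : A → ℂ) (V : Submodule ℂ (A → ℂ)) (z : A → ℂ) : Prop :=
  ∃ V' : Submodule ℂ (A → ℂ), V' ≤ V ∧ z ∈ V' ∧ IsRational (geometric A) V' ∧
    IsRational (arithmetic lam) V'

/-- The assertion of Q1 for the point `z`, with all subspaces `V` which are rational for the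
arithmetic structure and contain `z`. -/
def HoldsAt (lam : A → ℂ) (z : A → ℂ) : Prop :=
  ∀ V : Submodule ℂ (A → ℂ), IsRational (arithmetic lam) V → z ∈ V → HasBiRational lam V z

open Classical in
/-- The linear relation with the algebraic coefficients `c` between the numbers `x a` is a sum of
relations between numbers with algebraic quotients of the factors `lam a`: for every `b` the sum of
the terms `c a * x a` with `lam a / lam b` algebraic is zero. -/
def SplitsAlong (lam : A → ℂ) (c x : A → ℂ) : Prop :=
  ∀ b, ∑ a, (if lam a / lam b ∈ Qbar then c a * x a else 0) = 0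

/-- Every linear relation with algebraic coefficients between the numbers `x a` is a sum of
relations between numbers with algebraic quotients of the factors `lam a`. -/
def OnlyTrivialRelations (lam x : A → ℂ) : Prop :=
  ∀ c : A → ℂ, (∀ a, c a ∈ Qbar) → ∑ a, c a * x a = 0 → SplitsAlong lam c x

/-- The factors for the Siegel space at a point `o` of CM type: the tangent space is the space of the
symmetric matrices, and the factor of the entry `(i, j)` is `θ i * θ j / π`, where the `θ i` are the
holomorphic periods. -/
noncomputable def siegel {g : ℕ} (θ : Fin g → ℂ) : Fin g × Fin g → ℂ :=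
  fun s => θ s.1 * θ s.2 / Real.pi

/-- The quadratic form with the coefficients `c s * z s` is the product of two linear forms with
algebraic coefficients. -/
def IsProduct {g : ℕ} (c z : Fin g × Fin g → ℂ) : Prop :=
  ∃ a b : Fin g → ℂ, (∀ i, a i ∈ Qbar) ∧ (∀ i, b i ∈ Qbar) ∧
    ∀ x : Fin g → ℂ, ∑ s, c s * z s * (x s.1 * x s.2) = (∑ i, a i * x i) * ∑ i, b i * x i

/-- The subspace `V` is defined by the arithmetic equations in the set `C`. -/
def IsDefinedBy (lam : A → ℂ) (C : Set (A → ℂ)) (V : Submodule ℂ (A → ℂ)) : Prop :=
  ∀ v, v ∈ V ↔ ∀ c ∈ C, ∑ a, c a * (lam a * v a) = 0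

/-- The nonzero entries of `z` are in one row and the corresponding column. -/
def InOneRow {g : ℕ} (z : Fin g × Fin g → ℂ) : Prop :=
  ∃ k, ∀ i j, z (i, j) ≠ 0 → i = k ∨ j = k

/-- The periods `θ i` for which the row or the column `i` of `z` is not zero are algebraic multiples
of two of them. -/
def InTwoClasses {g : ℕ} (θ : Fin g → ℂ) (z : Fin g × Fin g → ℂ) : Prop :=
  ∃ p q, ∀ i j, z (i, j) ≠ 0 → (θ i / θ p ∈ Qbar ∨ θ i / θ q ∈ Qbar) ∧
    (θ j / θ p ∈ Qbar ∨ θ j / θ q ∈ Qbar)

end Pool.Agent.Q50.HY
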