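import Pool.Agent.Q50.HY.Defs

set_option maxHeartbeats 4000000
set_option synthInstance.maxHeartbeats 400000

namespace Pool.Agent.Q50.HY

variable {A : Type} [Fintype A]

/-- Apply a linear map to the field of algebraic numbers to all coordinates. -/
noncomputable def app (φ : ℂ →ₗ[Qbar] Qbar) (v : A → ℂ) : A → ℂ := fun a => (φ (v a) : ℂ)

theorem app_mem_of_rational {W : Submodule ℂ (A → ℂ)} (h : IsRational (geometric A) W)
    (φ : ℂ →ₗ[Qbar] Qbar) {w : A → ℂ} (hw : w ∈ W) : app φ w ∈ W := by
  have h1 := h hw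
  revert φ
  induction h1 using Submodule.span_induction with
  | mem x hx =>
    intro φ
    have h2 : app φ x = (φ 1 : ℂ) • x := by
      funext a
      have h3 : φ (x a) = (⟨x a, hx.2 a⟩ : Qbar) • φ 1 := by
        rw [← map_smul]
        congr 1
        change x a = x a * 1
        rw [mul_one]
      change (φ (x a) : ℂ) = (φ 1 : ℂ) * x a
      rw [h3]
      change (x a) * (φ 1 : ℂ) = _
      ring
    rw [h2]
    exact W.smul_mem _ hx.1
  | zero =>
    intro φ
    have : app φ (0 : A → ℂ) = 0 := by
      funext a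
      change (φ 0 : ℂ) = 0
      rw [map_zero]
      rfl
    rw [this]
    exact W.zero_mem
  | add x y hx hy ihx ihy =>
    intro φ
    have hx' : x ∈ W := (Submodule.span_le.2 fun v hv => hv.1) hx
    have hy' : y ∈ W := (Submodule.span_le.2 fun v hv => hv.1) hy
    have : app φ (x + y) = app φ x + app φ y := by
      funext a
      change (φ (x a + y a) : ℂ) = (φ (x a) : ℂ) + (φ (y a) : ℂ)
      rw [map_add]
      rfl
    rw [this]
    exact W.add_mem (ihx hx' φ) (ihy hy' φ)
  | smul r x hx ih =>
    intro φ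
    have hx' : x ∈ W := (Submodule.span_le.2 fun v hv => hv.1) hx
    have := ih hx' (φ.comp (LinearMap.mulLeft Qbar r))
    exact this

theorem exists_expansion (v : A → ℂ) :
    v ∈ Submodule.span ℂ {w : A → ℂ | ∃ φ : ℂ →ₗ[Qbar] Qbar, w = app φ v} := by
  classical
  let b := Module.Basis.ofVectorSpace Qbar ℂ
  let T : Finset _ := Finset.univ.biUnion fun a => (b.repr (v a)).support
  have h1 : v = ∑ t ∈ T, b t • app (b.coord t) v := by
    funext a
    rw [Finset.sum_apply]
    have h2 : (v a) = ∑ t ∈ T, b.repr (v a) t • b t := by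
      conv_lhs => rw [← b.linearCombination_repr (v a)]
      rw [Finsupp.linearCombination_apply, Finsupp.sum]
      apply Finset.sum_subset
      · intro t ht
        exact Finset.mem_biUnion.2 ⟨a, Finset.mem_univ _, ht⟩
      · intro t _ ht
        rw [Finsupp.notMem_support_iff.1 ht, zero_smul]
    conv_lhs => rw [h2]
    refine Finset.sum_congr rfl fun t _ => ?_
    change (b.repr (v a) t : ℂ) * b t = b t * (b.repr (v a) t : ℂ)
    ring
  have key : (∑ t ∈ T, b t • app (b.coord t) v) ∈
      Submodule.span ℂ {w : A → ℂ | ∃ φ : ℂ →ₗ[Qbar] Qbar, w = app φ v} :=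
    Submodule.sum_mem _ fun t _ => Submodule.smul_mem _ _ (Submodule.subset_span ⟨b.coord t, rfl⟩)
  rw [← h1] at key
  exact key

end Pool.Agent.Q50.HY
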