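import Pool.Agent.Q50.HY.Suf

set_option maxHeartbeats 4000000
set_option synthInstance.maxHeartbeats 400000
set_option linter.unusedSectionVars false

namespace Pool.Agent.Q50.HY

open Classical

variable {A : Type} [Fintype A]

/-- The algebraic points of a complex subspace. -/
def pts (V : Submodule ℂ (A → ℂ)) : Submodule Qbar (A → Qbar) where
  carrier := {u | (fun a => (u a : ℂ)) ∈ V}
  zero_mem' := V.zero_mem
  add_mem' := fun hx hy => V.add_mem hx hy
  smul_mem' := fun r _ hx => V.smul_mem (r : ℂ) hx

/-- The support. -/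
noncomputable def supp (u : A → Qbar) : Finset A := Finset.univ.filter fun a => u a ≠ 0

theorem mem_supp {u : A → Qbar} {a : A} : a ∈ supp u ↔ u a ≠ 0 := by
  simp [supp]

theorem unmap {lam : A → ℂ} (h : ∀ a, lam a ≠ 0) {V : Submodule ℂ (A → ℂ)} {w : A → ℂ}
    (hw : w ∈ V.map (LinearMap.mulLeft ℂ lam)) : (fun a => w a / lam a) ∈ V := by
  apply mem_of_map h
  have : LinearMap.mulLeft ℂ lam (fun a => w a / lam a) = w := by
    funext a
    change lam a * (w a / lam a) = w a
    field_simp [h a]
  rwa [this]

theorem class_of_minimal {lam : A → ℂ} (h : ∀ a, lam a ≠ 0) {V : Submodule ℂ (A → ℂ)}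
    (hg : IsRational (geometric A) V) (ha : IsRational (arithmetic lam) V) {u : A → Qbar}
    (hu : u ∈ pts V) (hmin : ∀ u' ∈ pts V, supp u' ⊂ supp u → u' = 0) {a0 a : A}
    (h0 : u a0 ≠ 0) (h1 : u a ≠ 0) : Rel lam a a0 := by
  have hW := map_rational ha
  have hDu : LinearMap.mulLeft ℂ lam (fun a => (u a : ℂ)) ∈ V.map (LinearMap.mulLeft ℂ lam) :=
    ⟨_, hu, rfl⟩
  have hne : lam a0 * (u a0 : ℂ) ≠ 0 := mul_ne_zero (h a0) (by exact_mod_cast h0)
  obtain ⟨φ, hφ⟩ : ∃ φ : Module.Dual Qbar ℂ, φ (lam a0 * (u a0 : ℂ)) ≠ 0 := by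
    by_contra hno
    push Not at hno
    exact hne ((Module.forall_dual_apply_eq_zero_iff Qbar _).1 hno)
  have hv := unmap h (app_mem_of_rational hW φ hDu)
  -- the complex numbers `x a`
  let x : A → ℂ := fun a => (φ (lam a * (u a : ℂ)) : ℂ) / lam a
  have hx : x ∈ V := hv
  have hxpsi : ∀ ψ : Module.Dual Qbar ℂ, (fun a => ψ (x a)) = (ψ (x a0) / u a0) • u := by
    intro ψ
    have h2 : (fun a => ψ (x a)) ∈ pts V := app_mem_of_rational hg ψ hx
    have h3 : (fun a => ψ (x a)) - (ψ (x a0) / u a0) • u ∈ pts V :=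
      Submodule.sub_mem _ h2 (Submodule.smul_mem _ _ hu)
    have h4 := hmin _ h3 ?_
    · exact sub_eq_zero.1 h4
    · refine (Finset.ssubset_iff_of_subset ?_).2 ⟨a0, mem_supp.2 h0, ?_⟩
      · intro b hb
        rw [mem_supp] at hb ⊢
        intro hb0
        apply hb
        change ψ (x b) - (ψ (x a0) / u a0) * u b = 0
        have : x b = 0 := by
          change (φ (lam b * (u b : ℂ)) : ℂ) / lam b = 0
          rw [hb0]
          have : lam b * ((0 : Qbar) : ℂ) = 0 := by
            rw [ZeroMemClass.coe_zero, mul_zero]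
          rw [this, map_zero]
          simp
        rw [this, map_zero, hb0, mul_zero, sub_zero]
      · rw [mem_supp]
        push Not
        change ψ (x a0) - (ψ (x a0) / u a0) * u a0 = 0
        rw [div_mul_cancel₀ _ h0, sub_self]
  have hxa : x a = ((u a : ℂ) / (u a0 : ℂ)) * x a0 := by
    rw [← sub_eq_zero, ← Module.forall_dual_apply_eq_zero_iff Qbar]
    intro ψ
    have h2 := congrFun (hxpsi ψ) a
    change ψ (x a) = (ψ (x a0) / u a0) * u a at h2
    have h3 : ((u a : ℂ) / (u a0 : ℂ)) * x a0 = (u a / u a0) • x a0 := by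
      change _ = (((u a / u a0 : Qbar)) : ℂ) * x a0
      push_cast
      rfl
    rw [map_sub, h3, map_smul, h2, smul_eq_mul]
    ring
  have hu0 : (u a0 : ℂ) ≠ 0 := by exact_mod_cast h0
  have hu1 : (u a : ℂ) ≠ 0 := by exact_mod_cast h1
  have hw0 : (φ (lam a0 * (u a0 : ℂ)) : ℂ) ≠ 0 := by exact_mod_cast hφ
  change (φ (lam a * (u a : ℂ)) : ℂ) / lam a =
    ((u a : ℂ) / (u a0 : ℂ)) * ((φ (lam a0 * (u a0 : ℂ)) : ℂ) / lam a0) at hxa
  have h5 : lam a / lam a0 = (φ (lam a * (u a : ℂ)) : ℂ) * (u a0 : ℂ) /
      ((u a : ℂ) * (φ (lam a0 * (u a0 : ℂ)) : ℂ)) := by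
    have h6 := h a
    have h7 := h a0
    generalize (φ (lam a * (u a : ℂ)) : ℂ) = P at *
    generalize (φ (lam a0 * (u a0 : ℂ)) : ℂ) = P0 at *
    field_simp at hxa ⊢
    linear_combination -hxa
  unfold Rel
  rw [h5]
  exact div_mem (mul_mem (φ _).2 (u a0).2) (mul_mem (u a).2 (φ _).2)

theorem pts_span {lam : A → ℂ} (h : ∀ a, lam a ≠ 0) {V : Submodule ℂ (A → ℂ)}
    (hg : IsRational (geometric A) V) (ha : IsRational (arithmetic lam) V) (n : ℕ) :
    ∀ u ∈ pts V, (supp u).card ≤ n → u ∈ Submodule.span Qbar
      {u' | u' ∈ pts V ∧ ∀ a b, u' a ≠ 0 → u' b ≠ 0 → Rel lam a b} := by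
  induction n with
  | zero =>
    intro u _ hcard
    have : u = 0 := by
      funext a
      by_contra hne
      have h2 : a ∈ supp u := mem_supp.2 hne
      have h3 := Finset.card_pos.2 ⟨a, h2⟩
      omega
    rw [this]
    exact Submodule.zero_mem _
  | succ n ih =>
    intro u hu hcard
    by_cases hmin : ∀ u' ∈ pts V, supp u' ⊂ supp u → u' = 0
    · exact Submodule.subset_span ⟨hu, fun a b hua hub =>
        class_of_minimal h hg ha hu hmin hub hua⟩
    · push Not at hmin
      obtain ⟨u', hu', hss, hne⟩ := hmin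
      obtain ⟨a, hua⟩ : ∃ a, u' a ≠ 0 := by
        by_contra hno
        push Not at hno
        exact hne (funext hno)
      have h1 : u' ∈ Submodule.span Qbar
          {u' | u' ∈ pts V ∧ ∀ a b, u' a ≠ 0 → u' b ≠ 0 → Rel lam a b} := by
        refine ih u' hu' ?_
        have := Finset.card_lt_card hss
        omega
      have h2 : u - (u a / u' a) • u' ∈ Submodule.span Qbar
          {u' | u' ∈ pts V ∧ ∀ a b, u' a ≠ 0 → u' b ≠ 0 → Rel lam a b} := by
        refine ih _ (Submodule.sub_mem _ hu (Submodule.smul_mem _ _ hu')) ?_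
        have h3 : supp (u - (u a / u' a) • u') ⊂ supp u := by
          refine (Finset.ssubset_iff_of_subset ?_).2
            ⟨a, hss.1 (mem_supp.2 hua), ?_⟩
          · intro b hb
            rw [mem_supp] at hb ⊢
            intro hb0
            apply hb
            have hb' : u' b = 0 := by
              by_contra hne'
              exact (mem_supp.1 (hss.1 (mem_supp.2 hne'))) hb0
            change u b - (u a / u' a) * u' b = 0
            rw [hb0, hb', mul_zero, sub_zero]
          · rw [mem_supp]
            push Not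
            change u a - (u a / u' a) * u' a = 0
            rw [div_mul_cancel₀ _ hua, sub_self]
        have := Finset.card_lt_card h3
        omega
      have h3 := Submodule.add_mem _ h2 (Submodule.smul_mem _ (u a / u' a) h1)
      rwa [sub_add_cancel] at h3

/-- The components of the elements of a subspace which is rational for both structures are in the
subspace. -/
theorem comp_mem_of_biRational {lam : A → ℂ} (h : ∀ a, lam a ≠ 0) {V : Submodule ℂ (A → ℂ)}
    (hg : IsRational (geometric A) V) (ha : IsRational (arithmetic lam) V) {z : A → ℂ}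
    (hz : z ∈ V) (b : A) : comp lam b z ∈ V := by
  have hpts : ∀ u ∈ pts V, comp lam b (fun a => (u a : ℂ)) ∈ V := by
    intro u hu
    have h1 := pts_span h hg ha _ u hu le_rfl
    have hsub : ∀ x ∈ Submodule.span Qbar
        {u' | u' ∈ pts V ∧ ∀ a b, u' a ≠ 0 → u' b ≠ 0 → Rel lam a b}, x ∈ pts V :=
      fun x hx => (Submodule.span_le (p := pts V)).2 (fun v hv => hv.1) hx
    induction h1 using Submodule.span_induction with
    | mem x hx =>
      by_cases hb : ∃ a, x a ≠ 0 ∧ Rel lam a b
      · obtain ⟨a, hxa, hab⟩ := hb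
        have : comp lam b (fun a => (x a : ℂ)) = fun a => (x a : ℂ) := by
          funext a'
          unfold comp
          by_cases hx' : x a' = 0
          · simp [hx']
          · rw [if_pos (rel_trans h (hx.2 a' a hx' hxa) hab)]
        rw [this]
        exact hx.1
      · push Not at hb
        have : comp lam b (fun a => (x a : ℂ)) = 0 := by
          funext a'
          unfold comp
          by_cases hx' : x a' = 0
          · simp [hx']
          · rw [if_neg (hb a' hx')]
            rfl
        rw [this]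
        exact V.zero_mem
    | zero =>
      have : comp lam b (fun a => (((0 : A → Qbar) a : Qbar) : ℂ)) = 0 := by
        funext a'
        unfold comp
        simp
      rw [this]
      exact V.zero_mem
    | add x y _ _ ihx ihy =>
      have hx' : x ∈ pts V := hsub x ‹_›
      have hy' : y ∈ pts V := hsub y ‹_›
      have : comp lam b (fun a => (((x + y) a : Qbar) : ℂ)) =
          comp lam b (fun a => (x a : ℂ)) + comp lam b (fun a => (y a : ℂ)) := by
        funext a'
        change (if Rel lam a' b then (((x + y) a' : Qbar) : ℂ) else 0) =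
          (if Rel lam a' b then (x a' : ℂ) else 0) + (if Rel lam a' b then (y a' : ℂ) else 0)
        split_ifs
        · rfl
        · rw [add_zero]
      rw [this]
      exact V.add_mem (ihx hx') (ihy hy')
    | smul r x _ ih =>
      have hx' : x ∈ pts V := hsub x ‹_›
      have : comp lam b (fun a => (((r • x) a : Qbar) : ℂ)) =
          (r : ℂ) • comp lam b (fun a => (x a : ℂ)) := by
        funext a'
        change (if Rel lam a' b then (((r • x) a' : Qbar) : ℂ) else 0) =
          (r : ℂ) * (if Rel lam a' b then (x a' : ℂ) else 0)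
        split_ifs
        · rfl
        · rw [mul_zero]
      rw [this]
      exact V.smul_mem _ (ih hx')
  have h1 := hg hz
  induction h1 using Submodule.span_induction with
  | mem x hx =>
    exact hpts (fun a => ⟨x a, hx.2 a⟩) hx.1
  | zero =>
    have : comp lam b (0 : A → ℂ) = 0 := by
      funext a'
      unfold comp
      simp
    rw [this]
    exact V.zero_mem
  | add x y hx hy ihx ihy =>
    have hx' : x ∈ V := (Submodule.span_le.2 fun v hv => hv.1) hx
    have hy' : y ∈ V := (Submodule.span_le.2 fun v hv => hv.1) hy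
    have : comp lam b (x + y) = comp lam b x + comp lam b y := by
      funext a'
      change (if Rel lam a' b then x a' + y a' else 0) =
        (if Rel lam a' b then x a' else 0) + (if Rel lam a' b then y a' else 0)
      split_ifs
      · rfl
      · rw [add_zero]
    rw [this]
    exact V.add_mem (ihx hx') (ihy hy')
  | smul r x hx ih =>
    have hx' : x ∈ V := (Submodule.span_le.2 fun v hv => hv.1) hx
    have : comp lam b (r • x) = r • comp lam b x := by
      funext a'
      change (if Rel lam a' b then r * x a' else 0) = r * (if Rel lam a' b then x a' else 0)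
      split_ifs
      · rfl
      · rw [mul_zero]
    rw [this]
    exact V.smul_mem _ (ih hx')

/-- The subspace defined by a linear equation which is rational for the arithmetic structure. -/
noncomputable def hyp (lam c : A → ℂ) : Submodule ℂ (A → ℂ) :=
  LinearMap.ker (∑ a, (c a * lam a) • (LinearMap.proj a : (A → ℂ) →ₗ[ℂ] ℂ))

theorem mem_hyp {lam c v : A → ℂ} : v ∈ hyp lam c ↔ ∑ a, c a * (lam a * v a) = 0 := by
  unfold hyp
  rw [LinearMap.mem_ker, LinearMap.sum_apply]
  simp only [LinearMap.smul_apply, LinearMap.proj_apply, smul_eq_mul, mul_assoc]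

theorem hyp_rational {lam c : A → ℂ} (h : ∀ a, lam a ≠ 0) (hc : ∀ a, c a ∈ Qbar) :
    IsRational (arithmetic lam) (hyp lam c) := by
  intro v hv
  have h1 := exists_expansion (LinearMap.mulLeft ℂ lam v)
  let D' : (A → ℂ) →ₗ[ℂ] (A → ℂ) := LinearMap.mulLeft ℂ fun a => (lam a)⁻¹
  have h2 := Submodule.mem_map_of_mem (f := D') h1
  have h3 : D' (LinearMap.mulLeft ℂ lam v) = v := by
    funext a
    change (lam a)⁻¹ * (lam a * v a) = v a
    field_simp [h a]
  rw [h3, Submodule.map_span] at h2
  refine Submodule.span_mono ?_ h2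
  rintro _ ⟨w, ⟨φ, rfl⟩, rfl⟩
  have h4 : ∀ a, D' (app φ (LinearMap.mulLeft ℂ lam v)) a =
      (lam a)⁻¹ * (φ (lam a * v a) : ℂ) := fun _ => rfl
  have h5 : ∀ a, lam a * D' (app φ (LinearMap.mulLeft ℂ lam v)) a = (φ (lam a * v a) : ℂ) := by
    intro a
    rw [h4, ← mul_assoc, mul_inv_cancel₀ (h a), one_mul]
  refine ⟨?_, fun a => ?_⟩
  · rw [mem_hyp]
    rw [Finset.sum_congr rfl fun a _ => by rw [h5 a]]
    rw [mem_hyp] at hv
    have h6 := congrArg (fun x => (φ x : ℂ)) hv
    rw [map_zero, map_sum] at h6
    push_cast at h6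
    rw [← h6]
    refine Finset.sum_congr rfl fun a _ => ?_
    have : c a * (lam a * v a) = (⟨c a, hc a⟩ : Qbar) • (lam a * v a) := rfl
    rw [this, map_smul]
    rfl
  · rw [h5]
    exact (φ _).2

theorem trivial_of_holdsAt {lam z : A → ℂ} (h : ∀ a, lam a ≠ 0) (hz : HoldsAt lam z) :
    OnlyTrivialRelations lam fun a => lam a * z a := by
  intro c hc h0 b
  obtain ⟨V', hV', hzV, hg, ha⟩ := hz (hyp lam c) (hyp_rational h hc) (mem_hyp.2 h0)
  have h1 := hV' (comp_mem_of_biRational h hg ha hzV b)
  rw [mem_hyp] at h1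
  refine Eq.trans (Finset.sum_congr rfl fun a _ => ?_) h1
  change (if Rel lam a b then c a * (lam a * z a) else 0) =
    c a * (lam a * (if Rel lam a b then z a else 0))
  split_ifs
  · rfl
  · rw [mul_zero, mul_zero]

/-- **Q1 for a point with algebraic coordinates is a statement on linear relations.** -/
theorem holdsAt_iff {lam z : A → ℂ} (h : ∀ a, lam a ≠ 0) (hz : z ∈ geometric A) :
    HoldsAt lam z ↔ OnlyTrivialRelations lam fun a => lam a * z a :=
  ⟨trivial_of_holdsAt h, holdsAt_of_trivial h hz⟩

end Pool.Agent.Q50.HY
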