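import Pool.Agent.Q50.HY.Nec

set_option maxHeartbeats 4000000
set_option synthInstance.maxHeartbeats 400000
set_option linter.unusedSectionVars false

namespace Pool.Agent.Q50.HY

open Classical

variable {g : ℕ}

theorem siegel_ne {θ : Fin g → ℂ} (h : ∀ i, θ i ≠ 0) (s : Fin g × Fin g) : siegel θ s ≠ 0 :=
  div_ne_zero (mul_ne_zero (h _) (h _)) (by exact_mod_cast Real.pi_ne_zero)

theorem siegel_div {θ : Fin g → ℂ} (s t : Fin g × Fin g) :
    siegel θ s / siegel θ t = (θ s.1 * θ s.2) / (θ t.1 * θ t.2) := by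
  unfold siegel
  have : (Real.pi : ℂ) ≠ 0 := by exact_mod_cast Real.pi_ne_zero
  rw [div_div_div_cancel_right₀ this]

theorem relS_congr_left {θ : Fin g → ℂ} (h : ∀ i, θ i ≠ 0) {i i' j : Fin g} {t : Fin g × Fin g}
    (hi : Rel θ i' i) : Rel (siegel θ) (i', j) t ↔ Rel (siegel θ) (i, j) t := by
  have h1 : Rel (siegel θ) (i', j) (i, j) := by
    unfold Rel
    rw [siegel_div]
    have : (θ i' * θ j) / (θ i * θ j) = θ i' / θ i := by
      rw [mul_div_mul_right _ _ (h j)]
    rw [this]
    exact hi
  exact ⟨fun h2 => rel_trans (siegel_ne h) (rel_symm h1) h2,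
    fun h2 => rel_trans (siegel_ne h) h1 h2⟩

theorem relS_right {θ : Fin g → ℂ} (h : ∀ i, θ i ≠ 0) {i j j0 : Fin g} {t : Fin g × Fin g}
    (h0 : Rel (siegel θ) (i, j0) t) : Rel (siegel θ) (i, j) t ↔ Rel θ j j0 := by
  have h1 : Rel (siegel θ) (i, j) (i, j0) ↔ Rel θ j j0 := by
    unfold Rel
    rw [siegel_div]
    have : (θ i * θ j) / (θ i * θ j0) = θ j / θ j0 := by
      rw [mul_div_mul_left _ _ (h i)]
    rw [this]
  rw [← h1]
  exact ⟨fun h2 => rel_trans (siegel_ne h) h2 (rel_symm h0),
    fun h2 => rel_trans (siegel_ne h) h2 h0⟩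

theorem relS_swap {θ : Fin g → ℂ} {i j : Fin g} {t : Fin g × Fin g} :
    Rel (siegel θ) (i, j) t ↔ Rel (siegel θ) (j, i) t := by
  unfold Rel
  rw [siegel_div, siegel_div]
  change (θ i * θ j) / (θ t.1 * θ t.2) ∈ Qbar ↔ (θ j * θ i) / (θ t.1 * θ t.2) ∈ Qbar
  rw [mul_comm (θ i)]

/-- the indicator of the relation -/
noncomputable def ind (θ : Fin g → ℂ) (i j : Fin g) : ℂ := if Rel θ i j then 1 else 0

/-- The bilinear form vanishes on the components of `θ`. -/
theorem bilinear_zero {θ : Fin g → ℂ} (hW : OnlyTrivialRelations θ θ)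
    {m : Fin g × Fin g → ℂ} {a b : Fin g → ℂ} (ha : ∀ i, a i ∈ Qbar)
    (hm : ∀ x : Fin g → ℂ, ∑ s, m s * (x s.1 * x s.2) = (∑ i, a i * x i) * ∑ i, b i * x i)
    (h0 : ∑ i, a i * θ i = 0) (i0 j0 : Fin g) :
    ∑ i, ∑ j, ind θ i i0 * ind θ j j0 * ((m (i, j) + m (j, i)) * (θ i * θ j)) = 0 := by
  have hz : ∀ k, ∑ i, a i * (ind θ i k * θ i) = 0 := by
    intro k
    rw [← hW a ha h0 k]
    refine Finset.sum_congr rfl fun i _ => ?_
    unfold ind
    change a i * ((if Rel θ i k then 1 else 0) * θ i) = if Rel θ i k then a i * θ i else 0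
    split_ifs
    · ring
    · ring
  have h1 := hm fun i => ind θ i i0 * θ i
  have h2 := hm fun i => ind θ i j0 * θ i
  have h3 := hm fun i => ind θ i i0 * θ i + ind θ i j0 * θ i
  have h4 : ∑ i, a i * (ind θ i i0 * θ i + ind θ i j0 * θ i) = 0 := by
    simp only [mul_add, Finset.sum_add_distrib]
    rw [hz, hz, add_zero]
  rw [hz, zero_mul] at h1 h2
  rw [h4, zero_mul] at h3
  have h5 : ∑ s : Fin g × Fin g, m s * ((ind θ s.1 i0 * θ s.1) * (ind θ s.2 j0 * θ s.2) +
      (ind θ s.1 j0 * θ s.1) * (ind θ s.2 i0 * θ s.2)) = 0 := by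
    have h6 : ∀ s : Fin g × Fin g, m s * ((ind θ s.1 i0 * θ s.1) * (ind θ s.2 j0 * θ s.2) +
        (ind θ s.1 j0 * θ s.1) * (ind θ s.2 i0 * θ s.2)) =
        m s * ((ind θ s.1 i0 * θ s.1 + ind θ s.1 j0 * θ s.1) *
          (ind θ s.2 i0 * θ s.2 + ind θ s.2 j0 * θ s.2)) -
        m s * ((ind θ s.1 i0 * θ s.1) * (ind θ s.2 i0 * θ s.2)) -
        m s * ((ind θ s.1 j0 * θ s.1) * (ind θ s.2 j0 * θ s.2)) := by
      intro s
      ring
    rw [Finset.sum_congr rfl fun s _ => h6 s, Finset.sum_sub_distrib, Finset.sum_sub_distrib,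
      h1, h2, h3]
    ring
  rw [Fintype.sum_prod_type] at h5
  have h7 : ∑ i, ∑ j, ind θ i i0 * ind θ j j0 * ((m (i, j) + m (j, i)) * (θ i * θ j)) =
      (∑ i, ∑ j, m (i, j) * ((ind θ i i0 * θ i) * (ind θ j j0 * θ j))) +
      ∑ i, ∑ j, m (i, j) * ((ind θ i j0 * θ i) * (ind θ j i0 * θ j)) := by
    rw [Finset.sum_comm (f := fun i j => m (i, j) * ((ind θ i j0 * θ i) * (ind θ j i0 * θ j))),
      ← Finset.sum_add_distrib]
    refine Finset.sum_congr rfl fun i _ => ?_
    rw [← Finset.sum_add_distrib]
    refine Finset.sum_congr rfl fun j _ => ?_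
    ring
  rw [h7, ← h5, ← Finset.sum_add_distrib]
  refine Finset.sum_congr rfl fun i _ => ?_
  rw [← Finset.sum_add_distrib]
  refine Finset.sum_congr rfl fun j _ => ?_
  ring

/-- **The relations given by products of two linear forms split.** -/
theorem splits_of_product {θ : Fin g → ℂ} (h : ∀ i, θ i ≠ 0) (hW : OnlyTrivialRelations θ θ)
    {c z : Fin g × Fin g → ℂ} (hp : IsProduct c z)
    (h0 : ∑ s, c s * (siegel θ s * z s) = 0) :
    SplitsAlong (siegel θ) c fun s => siegel θ s * z s := by
  have hpi : (Real.pi : ℂ) ≠ 0 := by exact_mod_cast Real.pi_ne_zero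
  obtain ⟨a, b, ha, hb, hab⟩ := hp
  -- the form vanishes at `θ`
  have h1 : (∑ i, a i * θ i) * ∑ i, b i * θ i = 0 := by
    rw [← hab θ]
    have h2 : ∑ s, c s * z s * (θ s.1 * θ s.2) = Real.pi * ∑ s, c s * (siegel θ s * z s) := by
      rw [Finset.mul_sum]
      refine Finset.sum_congr rfl fun s _ => ?_
      unfold siegel
      field_simp
    rw [h2, h0, mul_zero]
  have hB : ∀ i0 j0, ∑ i, ∑ j, ind θ i i0 * ind θ j j0 *
      ((c (i, j) * z (i, j) + c (j, i) * z (j, i)) * (θ i * θ j)) = 0 := by
    rcases mul_eq_zero.1 h1 with h2 | h2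
    · exact fun i0 j0 => bilinear_zero (m := fun s => c s * z s) hW ha hab h2 i0 j0
    · refine fun i0 j0 => bilinear_zero (m := fun s => c s * z s) (a := b) (b := a) hW hb ?_ h2 i0 j0
      intro x
      rw [hab x, mul_comm]
  intro t
  -- the symmetrised sum
  let N : Fin g → Fin g → ℂ := fun i j => if Rel (siegel θ) (i, j) t then 1 else 0
  let G : Fin g → Fin g → ℂ := fun i j =>
    (c (i, j) * z (i, j) + c (j, i) * z (j, i)) * (θ i * θ j)
  have hN : ∀ i j, N i j = N j i := by
    intro i j
    simp only [N]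
    have := relS_swap (θ := θ) (i := i) (j := j) (t := t)
    by_cases h5 : Rel (siegel θ) (i, j) t
    · rw [if_pos h5, if_pos (this.1 h5)]
    · rw [if_neg h5, if_neg fun h6 => h5 (this.2 h6)]
  have hS : ∑ s, (if siegel θ s / siegel θ t ∈ Qbar then c s * (siegel θ s * z s) else 0) =
      (1 / (2 * Real.pi)) * ∑ i, ∑ j, N i j * G i j := by
    have h2 : ∑ i, ∑ j, N i j * G i j =
        (∑ i, ∑ j, N i j * (c (i, j) * z (i, j) * (θ i * θ j))) +
        ∑ i, ∑ j, N i j * (c (i, j) * z (i, j) * (θ i * θ j)) := by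
      have h3 : ∑ i, ∑ j, N i j * (c (i, j) * z (i, j) * (θ i * θ j)) =
          ∑ i, ∑ j, N i j * (c (j, i) * z (j, i) * (θ i * θ j)) := by
        rw [Finset.sum_comm]
        refine Finset.sum_congr rfl fun i _ => Finset.sum_congr rfl fun j _ => ?_
        rw [hN j i]
        ring
      conv_rhs => rw [h3]
      conv_rhs =>
        lhs
        rw [← h3]
      rw [← Finset.sum_add_distrib]
      refine Finset.sum_congr rfl fun i _ => ?_
      rw [← Finset.sum_add_distrib]
      refine Finset.sum_congr rfl fun j _ => ?_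
      simp only [G]
      ring
    rw [h2, Fintype.sum_prod_type]
    have h4 : ∀ i j, (if siegel θ (i, j) / siegel θ t ∈ Qbar then
        c (i, j) * (siegel θ (i, j) * z (i, j)) else 0) =
        (1 / Real.pi) * (N i j * (c (i, j) * z (i, j) * (θ i * θ j))) := by
      intro i j
      simp only [N]
      change (if Rel (siegel θ) (i, j) t then c (i, j) * (siegel θ (i, j) * z (i, j)) else 0) = _
      by_cases h5 : Rel (siegel θ) (i, j) t
      · rw [if_pos h5, if_pos h5]
        unfold siegel
        field_simp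
      · rw [if_neg h5, if_neg h5]
        ring
    rw [Finset.sum_congr rfl fun i _ => Finset.sum_congr rfl fun j _ => h4 i j]
    simp only [← Finset.mul_sum]
    field_simp
    ring
  rw [hS]
  have hzero : ∑ i, ∑ j, N i j * G i j = 0 := by
    let n : Fin g → ℂ := fun i => ∑ k, ind θ k i
    have hn : ∀ i, n i ≠ 0 := by
      intro i
      have h1 : n i = ((Finset.univ.filter fun a => Rel θ a i).card : ℂ) := by
        simp only [n, ind, Finset.sum_boole]
      rw [h1]
      have : (Finset.univ.filter fun a => Rel θ a i).Nonempty :=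
        ⟨i, Finset.mem_filter.2 ⟨Finset.mem_univ _, rel_refl h i⟩⟩
      exact Nat.cast_ne_zero.2 (Finset.card_pos.2 this).ne'
    have hind : ∀ i k, ind θ k i * n i = ind θ k i * n k := by
      intro i k
      unfold ind
      by_cases hki : Rel θ k i
      · have : n i = n k := by
          refine Finset.sum_congr rfl fun l _ => ?_
          unfold ind
          have := rel_iff h hki l
          by_cases hl : Rel θ l k
          · rw [if_pos hl, if_pos (this.1 hl)]
          · rw [if_neg hl, if_neg fun h5 => hl (this.2 h5)]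
        rw [this]
      · rw [if_neg hki, zero_mul, zero_mul]
    have hinds : ∀ i k, ind θ k i = ind θ i k := by
      intro i k
      unfold ind
      by_cases hki : Rel θ k i
      · rw [if_pos hki, if_pos (rel_symm hki)]
      · rw [if_neg hki, if_neg fun h5 => hki (rel_symm h5)]
    have hav : ∀ f : Fin g → ℂ, ∑ i, f i = ∑ i, (n i)⁻¹ * ∑ k, ind θ k i * f k := by
      intro f
      have h2 : ∑ i, (n i)⁻¹ * ∑ k, ind θ k i * f k = ∑ k, ∑ i, (n i)⁻¹ * (ind θ k i * f k) := by
        rw [Finset.sum_comm]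
        exact Finset.sum_congr rfl fun i _ => Finset.mul_sum _ _ _
      rw [h2]
      refine Finset.sum_congr rfl fun k _ => ?_
      have h3 : ∀ i, (n i)⁻¹ * (ind θ k i * f k) = ((n k)⁻¹ * f k) * ind θ i k := by
        intro i
        have h4 := hind i k
        have h5 := hn i
        have h6 := hn k
        rw [hinds k i]
        have h7 : (n i)⁻¹ * ind θ k i = (n k)⁻¹ * ind θ k i := by
          field_simp
          linear_combination -h4
        linear_combination f k * h7
      rw [Finset.sum_congr rfl fun i _ => h3 i, ← Finset.mul_sum]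
      change f k = (n k)⁻¹ * f k * n k
      field_simp [hn k]
    rw [hav]
    refine Finset.sum_eq_zero fun i _ => ?_
    have h8 : ∑ k, ind θ k i * ∑ j, N k j * G k j = 0 := by
      by_cases hj : ∃ j0, Rel (siegel θ) (i, j0) t
      · obtain ⟨j0, hj0⟩ := hj
        rw [← hB i j0]
        refine Finset.sum_congr rfl fun k _ => ?_
        rw [Finset.mul_sum]
        refine Finset.sum_congr rfl fun j _ => ?_
        by_cases hki : Rel θ k i
        · have h9 : N k j = ind θ j j0 := by
            simp only [N, ind]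
            have h10 := relS_congr_left h (j := j) (t := t) hki
            have h11 := relS_right h (j := j) hj0
            by_cases h12 : Rel θ j j0
            · rw [if_pos h12, if_pos (h10.2 (h11.2 h12))]
            · rw [if_neg h12, if_neg fun h13 => h12 (h11.1 (h10.1 h13))]
          rw [h9]
          ring
        · have : ind θ k i = 0 := by
            unfold ind
            rw [if_neg hki]
          rw [this]
          ring
      · push Not at hj
        refine Finset.sum_eq_zero fun k _ => ?_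
        by_cases hki : Rel θ k i
        · have : ∑ j, N k j * G k j = 0 := by
            refine Finset.sum_eq_zero fun j _ => ?_
            have : N k j = 0 := by
              simp only [N]
              rw [if_neg fun h13 => hj j ((relS_congr_left h (j := j) (t := t) hki).1 h13)]
            rw [this, zero_mul]
          rw [this, mul_zero]
        · have : ind θ k i = 0 := by
            unfold ind
            rw [if_neg hki]
          rw [this, zero_mul]
    rw [h8, mul_zero]
  rw [hzero, mul_zero]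

end Pool.Agent.Q50.HY
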