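import Pool.Agent.Q50.HY.Lin

set_option maxHeartbeats 4000000
set_option synthInstance.maxHeartbeats 400000

namespace Pool.Agent.Q50.HY

open Classical

variable {A : Type} [Fintype A]

/-- The quotient of the factors is algebraic. -/
def Rel (lam : A → ℂ) (a b : A) : Prop := lam a / lam b ∈ Qbar

theorem rel_refl {lam : A → ℂ} (h : ∀ a, lam a ≠ 0) (a : A) : Rel lam a a := by
  unfold Rel
  rw [div_self (h a)]
  exact one_mem _

theorem rel_symm {lam : A → ℂ} {a b : A} (h : Rel lam a b) : Rel lam b a := by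
  unfold Rel at *
  rw [← inv_div]
  exact inv_mem h

theorem rel_trans {lam : A → ℂ} (h : ∀ a, lam a ≠ 0) {a b c : A} (h1 : Rel lam a b)
    (h2 : Rel lam b c) : Rel lam a c := by
  unfold Rel at *
  have := mul_mem h1 h2
  rwa [div_mul_div_cancel₀ (h b)] at this

theorem rel_iff {lam : A → ℂ} (h : ∀ a, lam a ≠ 0) {a b : A} (h1 : Rel lam a b) (c : A) :
    Rel lam c a ↔ Rel lam c b :=
  ⟨fun h2 => rel_trans h h2 h1, fun h2 => rel_trans h h2 (rel_symm h1)⟩

/-- The component of the vector `z` for the class of `b`. -/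
noncomputable def comp (lam : A → ℂ) (b : A) (z : A → ℂ) : A → ℂ :=
  fun a => if Rel lam a b then z a else 0

theorem map_rational {lam : A → ℂ} {V : Submodule ℂ (A → ℂ)}
    (hV : IsRational (arithmetic lam) V) :
    IsRational (geometric A) (V.map (LinearMap.mulLeft ℂ lam)) := by
  rintro w ⟨v, hv, rfl⟩
  have h1 := Submodule.mem_map_of_mem (f := LinearMap.mulLeft ℂ lam) (hV hv)
  rw [Submodule.map_span] at h1
  refine Submodule.span_mono ?_ h1
  rintro _ ⟨u, ⟨hu, hu2⟩, rfl⟩
  exact ⟨⟨u, hu, rfl⟩, hu2⟩

theorem mem_of_map {lam : A → ℂ} (h : ∀ a, lam a ≠ 0) {V : Submodule ℂ (A → ℂ)} {v : A → ℂ}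
    (hv : LinearMap.mulLeft ℂ lam v ∈ V.map (LinearMap.mulLeft ℂ lam)) : v ∈ V := by
  obtain ⟨u, hu, h1⟩ := hv
  have : u = v := by
    funext a
    have h2 := congrFun h1 a
    change lam a * u a = lam a * v a at h2
    exact mul_left_cancel₀ (h a) h2
  rwa [← this]

theorem comp_mem {lam : A → ℂ} (h : ∀ a, lam a ≠ 0) {z : A → ℂ} (hz : z ∈ geometric A)
    (hrel : OnlyTrivialRelations lam fun a => lam a * z a) {V : Submodule ℂ (A → ℂ)}
    (hV : IsRational (arithmetic lam) V) (hzV : z ∈ V) (b : A) : comp lam b z ∈ V := by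
  apply mem_of_map h
  have hW := map_rational hV
  have hDz : LinearMap.mulLeft ℂ lam z ∈ V.map (LinearMap.mulLeft ℂ lam) := ⟨z, hzV, rfl⟩
  have happ := fun φ => app_mem_of_rational hW φ hDz
  let y : A → Qbar := fun a => if hab : Rel lam a b then ⟨(lam a / lam b) * z a,
    mul_mem hab (hz a)⟩ else 0
  have hy : LinearMap.mulLeft ℂ lam (comp lam b z) = lam b • fun a => (y a : ℂ) := by
    funext a
    change lam a * (if Rel lam a b then z a else 0) = lam b * (y a : ℂ)
    by_cases hab : Rel lam a b
    · have : (y a : ℂ) = (lam a / lam b) * z a := by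
        simp only [y, dif_pos hab]
      rw [if_pos hab, this]
      field_simp [h b]
    · have : (y a : ℂ) = 0 := by
        simp only [y, dif_neg hab]
        rfl
      rw [if_neg hab, this, mul_zero, mul_zero]
  rw [hy]
  refine Submodule.smul_mem _ _ ?_
  let U : Submodule Qbar (A → Qbar) :=
    Submodule.span Qbar {u | ∃ φ : ℂ →ₗ[Qbar] Qbar, u = fun a => φ (lam a * z a)}
  have hU : ∀ u ∈ U, (fun a => (u a : ℂ)) ∈ V.map (LinearMap.mulLeft ℂ lam) := by
    intro u hu
    induction hu using Submodule.span_induction with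
    | mem x hx =>
      obtain ⟨φ, rfl⟩ := hx
      exact happ φ
    | zero => exact Submodule.zero_mem _
    | add x y _ _ ihx ihy => exact Submodule.add_mem _ ihx ihy
    | smul r x _ ih => exact Submodule.smul_mem _ (r : ℂ) ih
  apply hU
  by_contra hyU
  obtain ⟨f, hf1, hf2⟩ := Submodule.exists_le_ker_of_notMem hyU
  have hfsum : ∀ u : A → Qbar, f u = ∑ a, u a * f (Pi.single a 1) := by
    intro u
    rw [LinearMap.pi_apply_eq_sum_univ f u]
    refine Finset.sum_congr rfl fun a _ => ?_
    rw [smul_eq_mul]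
    congr 2
    funext a'
    by_cases haa : a = a'
    · subst haa
      simp
    · rw [Pi.single_eq_of_ne (Ne.symm haa)]
      simp [haa]
  have h0 : ∑ a, (f (Pi.single a 1) : ℂ) * (lam a * z a) = 0 := by
    rw [← Module.forall_dual_apply_eq_zero_iff Qbar]
    intro φ
    have h1 : f (fun a => φ (lam a * z a)) = 0 :=
      hf2 (Submodule.subset_span ⟨φ, rfl⟩)
    rw [hfsum] at h1
    rw [map_sum, ← h1]
    refine Finset.sum_congr rfl fun a _ => ?_
    have : (f (Pi.single a 1) : ℂ) * (lam a * z a) = (f (Pi.single a 1)) • (lam a * z a) := rfl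
    rw [this, map_smul, smul_eq_mul, mul_comm]
  have h2 := hrel (fun a => (f (Pi.single a 1) : ℂ)) (fun a => (f (Pi.single a 1)).2) h0 b
  apply hf1
  have h3 : (f y : ℂ) = 0 := by
    have h4 : (f y : ℂ) * lam b = 0 := by
      rw [hfsum y, ← h2]
      push_cast
      rw [Finset.sum_mul]
      refine Finset.sum_congr rfl fun a _ => ?_
      by_cases hab : Rel lam a b
      · have : (y a : ℂ) = (lam a / lam b) * z a := by
          simp only [y, dif_pos hab]
        have hab' : lam a / lam b ∈ Qbar := hab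
        rw [if_pos hab', this]
        field_simp [h b]
      · have : (y a : ℂ) = 0 := by
          simp only [y, dif_neg hab]
          rfl
        have hab' : ¬ lam a / lam b ∈ Qbar := hab
        rw [if_neg hab', this]
        ring
    exact (mul_eq_zero.1 h4).resolve_right (h b)
  exact_mod_cast h3

/-- The span of the components of `z`. -/
noncomputable def split (lam z : A → ℂ) : Submodule ℂ (A → ℂ) :=
  Submodule.span ℂ {v | ∃ b, v = comp lam b z}

theorem comp_geometric {lam z : A → ℂ} (hz : z ∈ geometric A) (b : A) :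
    comp lam b z ∈ geometric A := by
  intro a
  unfold comp
  split_ifs
  · exact hz a
  · exact zero_mem _

theorem split_geometric {lam z : A → ℂ} (hz : z ∈ geometric A) :
    IsRational (geometric A) (split lam z) := by
  refine Submodule.span_mono ?_
  rintro _ ⟨b, rfl⟩
  exact ⟨Submodule.subset_span ⟨b, rfl⟩, comp_geometric hz b⟩

theorem split_arithmetic {lam z : A → ℂ} (h : ∀ a, lam a ≠ 0) (hz : z ∈ geometric A) :
    IsRational (arithmetic lam) (split lam z) := by
  refine Submodule.span_le.2 ?_
  rintro _ ⟨b, rfl⟩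
  have h1 : (lam b)⁻¹ • comp lam b z ∈ {v | v ∈ split lam z ∧ v ∈ arithmetic lam} := by
    refine ⟨Submodule.smul_mem _ _ (Submodule.subset_span ⟨b, rfl⟩), fun a => ?_⟩
    change lam a * ((lam b)⁻¹ * comp lam b z a) ∈ Qbar
    unfold comp
    split_ifs with hab
    · have : lam a * ((lam b)⁻¹ * z a) = (lam a / lam b) * z a := by
        rw [div_eq_mul_inv]
        ring
      rw [this]
      exact mul_mem hab (hz a)
    · rw [mul_zero, mul_zero]
      exact zero_mem _
  have h2 := Submodule.smul_mem _ (lam b) (Submodule.subset_span (R := ℂ) h1)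
  rwa [smul_smul, mul_inv_cancel₀ (h b), one_smul] at h2

theorem mem_split {lam z : A → ℂ} (h : ∀ a, lam a ≠ 0) : z ∈ split lam z := by
  let n : A → ℂ := fun b => ∑ a, if Rel lam a b then 1 else 0
  have hn : ∀ b, n b ≠ 0 := by
    intro b
    have h1 : n b = ((Finset.univ.filter fun a => Rel lam a b).card : ℂ) := by
      simp only [n, Finset.sum_boole]
    rw [h1]
    have : (Finset.univ.filter fun a => Rel lam a b).Nonempty :=
      ⟨b, Finset.mem_filter.2 ⟨Finset.mem_univ _, rel_refl h b⟩⟩
    exact Nat.cast_ne_zero.2 (Finset.card_pos.2 this).ne'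
  have h1 : z = ∑ b, (n b)⁻¹ • comp lam b z := by
    funext a
    rw [Finset.sum_apply]
    have h2 : ∀ b, ((n b)⁻¹ • comp lam b z) a = (n a)⁻¹ * z a * (if Rel lam b a then 1 else 0) := by
      intro b
      change (n b)⁻¹ * (if Rel lam a b then z a else 0) = _
      by_cases hab : Rel lam a b
      · have h3 : n b = n a := by
          refine Finset.sum_congr rfl fun c _ => ?_
          have := rel_iff h hab c
          by_cases hc : Rel lam c a
          · rw [if_pos hc, if_pos (this.1 hc)]
          · rw [if_neg hc, if_neg fun h5 => hc (this.2 h5)]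
        rw [if_pos hab, if_pos (rel_symm hab), h3, mul_one]
      · rw [if_neg hab, if_neg fun h5 => hab (rel_symm h5), mul_zero, mul_zero]
    rw [Finset.sum_congr rfl fun b _ => h2 b, ← Finset.mul_sum]
    change z a = (n a)⁻¹ * z a * n a
    field_simp [hn a]
  have key : (∑ b, (n b)⁻¹ • comp lam b z) ∈ split lam z :=
    Submodule.sum_mem _ fun b _ => Submodule.smul_mem _ _ (Submodule.subset_span ⟨b, rfl⟩)
  rw [← h1] at key
  exact key

/-- If the components of `z` are in `V`, we can take their span. -/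
theorem hasBiRational_of_comp {lam z : A → ℂ} (h : ∀ a, lam a ≠ 0) (hz : z ∈ geometric A)
    {V : Submodule ℂ (A → ℂ)} (hV : ∀ b, comp lam b z ∈ V) : HasBiRational lam V z := by
  refine ⟨split lam z, ?_, mem_split h, split_geometric hz, split_arithmetic h hz⟩
  refine Submodule.span_le.2 ?_
  rintro _ ⟨b, rfl⟩
  exact hV b

theorem holdsAt_of_trivial {lam z : A → ℂ} (h : ∀ a, lam a ≠ 0) (hz : z ∈ geometric A)
    (hrel : OnlyTrivialRelations lam fun a => lam a * z a) : HoldsAt lam z :=
  fun _ hV hzV => hasBiRational_of_comp h hz fun b => comp_mem h hz hrel hV hzV b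

end Pool.Agent.Q50.HY
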