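import Pool.Agent.Q50.HY.Sie

set_option maxHeartbeats 4000000
set_option synthInstance.maxHeartbeats 400000
set_option linter.unusedSectionVars false

namespace Pool.Agent.Q50.HY

open Classical Polynomial

variable {g : ℕ}

theorem isProduct_of_row {c z : Fin g × Fin g → ℂ} (hc : ∀ s, c s ∈ Qbar)
    (hz : z ∈ geometric (Fin g × Fin g)) (hr : InOneRow z) : IsProduct c z := by
  obtain ⟨k, hk⟩ := hr
  refine ⟨Pi.single k 1, fun j => c (k, j) * z (k, j) + if j = k then 0 else c (j, k) * z (j, k),
    fun i => ?_, fun j => ?_, fun x => ?_⟩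
  · by_cases h : i = k
    · subst h
      rw [Pi.single_eq_same]
      exact one_mem _
    · rw [Pi.single_eq_of_ne h]
      exact zero_mem _
  · refine add_mem (mul_mem (hc _) (hz _)) ?_
    split_ifs
    · exact zero_mem _
    · exact mul_mem (hc _) (hz _)
  · have h1 : ∑ i, (Pi.single k (1 : ℂ) : Fin g → ℂ) i * x i = x k := by
      rw [Finset.sum_eq_single k]
      · rw [Pi.single_eq_same, one_mul]
      · intro i _ hi
        rw [Pi.single_eq_of_ne hi, zero_mul]
      · intro hk'
        exact absurd (Finset.mem_univ _) hk'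
    rw [h1, Fintype.sum_prod_type]
    have h2 : ∀ i, ∑ j, c (i, j) * z (i, j) * (x i * x j) =
        (if i = k then ∑ j, c (k, j) * z (k, j) * (x k * x j) else 0) +
        (if i = k then 0 else c (i, k) * z (i, k) * (x i * x k)) := by
      intro i
      by_cases hi : i = k
      · subst hi
        rw [if_pos rfl, if_pos rfl, add_zero]
      · rw [if_neg hi, if_neg hi, zero_add, Finset.sum_eq_single k]
        · intro j _ hj
          have : z (i, j) = 0 := by
            by_contra hne
            rcases hk i j hne with h | h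
            · exact hi h
            · exact hj h
          rw [this]
          ring
        · intro hk'
          exact absurd (Finset.mem_univ _) hk'
    rw [Finset.sum_congr rfl fun i _ => h2 i, Finset.sum_add_distrib, Finset.sum_ite_eq' ,
      if_pos (Finset.mem_univ _), Finset.mul_sum, ← Finset.sum_add_distrib]
    refine Finset.sum_congr rfl fun j _ => ?_
    by_cases hj : j = k
    · simp only [if_pos hj]
      ring
    · simp only [if_neg hj]
      ring

theorem mem_Qbar_of_algebraic {t : ℂ} (h : IsAlgebraic Qbar t) : t ∈ Qbar := by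
  rw [mem_algebraicClosure_iff]
  have : Algebra.IsAlgebraic ℚ Qbar := algebraicClosure.isAlgebraic ℚ ℂ
  exact h.restrictScalars ℚ

theorem holdsAt_of_row {θ : Fin g → ℂ} (h : ∀ i, θ i ≠ 0) (hW : OnlyTrivialRelations θ θ)
    {z : Fin g × Fin g → ℂ} (hz : z ∈ geometric (Fin g × Fin g)) (hr : InOneRow z) :
    HoldsAt (siegel θ) z :=
  holdsAt_of_trivial (siegel_ne h) hz fun _ hc h0 =>
    splits_of_product h hW (isProduct_of_row hc hz hr) h0

theorem holdsAt_of_two {θ : Fin g → ℂ} (h : ∀ i, θ i ≠ 0)
    {z : Fin g × Fin g → ℂ} (hz : z ∈ geometric (Fin g × Fin g)) (ht : InTwoClasses θ z) :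
    HoldsAt (siegel θ) z := by
  have hpi : (Real.pi : ℂ) ≠ 0 := by exact_mod_cast Real.pi_ne_zero
  obtain ⟨p, q, hpq⟩ := ht
  refine holdsAt_of_trivial (siegel_ne h) hz ?_
  intro c hc h0 b
  let t : ℂ := θ p / θ q
  have htne : t ≠ 0 := div_ne_zero (h p) (h q)
  let e : Fin g → ℕ := fun i => if Rel θ i p then 1 else 0
  let r : Fin g → ℂ := fun i => if Rel θ i p then θ i / θ p else θ i / θ q
  have hr : ∀ i, (Rel θ i p ∨ Rel θ i q) → r i ∈ Qbar := by
    intro i hi
    simp only [r]
    split_ifs with h1
    · exact h1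
    · exact hi.resolve_left h1
  have hth : ∀ i, θ i = r i * θ q * t ^ e i := by
    intro i
    simp only [r, e, t]
    have h1 := h p
    have h2 := h q
    split_ifs
    · field_simp
    · field_simp
  have hrne : ∀ i, r i ≠ 0 := by
    intro i
    simp only [r]
    split_ifs
    · exact div_ne_zero (h _) (h _)
    · exact div_ne_zero (h _) (h _)
  let k : Fin g × Fin g → ℕ := fun s => e s.1 + e s.2
  let m : Fin g × Fin g → Qbar := fun s =>
    if hs : z s ≠ 0 then ⟨c s * z s * (r s.1 * r s.2), mul_mem (mul_mem (hc s) (hz s))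
      (mul_mem (hr _ (hpq s.1 s.2 hs).1) (hr _ (hpq s.1 s.2 hs).2))⟩ else 0
  have hm : ∀ s, c s * (siegel θ s * z s) = (θ q ^ 2 / Real.pi) * ((m s : ℂ) * t ^ k s) := by
    intro s
    by_cases hs : z s ≠ 0
    · have h1 : (m s : ℂ) = c s * z s * (r s.1 * r s.2) := by
        simp only [m, dif_pos hs]
      rw [h1]
      unfold siegel
      conv_lhs => rw [hth s.1, hth s.2]
      simp only [k]
      rw [pow_add]
      field_simp
    · push Not at hs
      have h1 : (m s : ℂ) = 0 := by
        simp only [m, hs]
        simp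
      rw [h1]
      simp only [hs]
      ring
  have hlam : ∀ s, siegel θ s = (θ q ^ 2 / Real.pi) * ((r s.1 * r s.2) * t ^ k s) := by
    intro s
    unfold siegel
    conv_lhs => rw [hth s.1, hth s.2]
    simp only [k]
    rw [pow_add]
    field_simp
  have hC : θ q ^ 2 / (Real.pi : ℂ) ≠ 0 := div_ne_zero (pow_ne_zero _ (h q)) hpi
  have hrelS : ∀ s s0, z s ≠ 0 → z s0 ≠ 0 →
      (Rel (siegel θ) s s0 ↔ t ^ k s / t ^ k s0 ∈ Qbar) := by
    intro s s0 hs hs0
    have h1 : siegel θ s / siegel θ s0 =
        ((r s.1 * r s.2) / (r s0.1 * r s0.2)) * (t ^ k s / t ^ k s0) := by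
      rw [hlam s, hlam s0]
      have h2 := hrne s0.1
      have h3 := hrne s0.2
      have h4 := pow_ne_zero (k s0) htne
      have h5 := h q
      field_simp
    have h6 : (r s.1 * r s.2) / (r s0.1 * r s0.2) ∈ Qbar :=
      div_mem (mul_mem (hr _ (hpq s.1 s.2 hs).1) (hr _ (hpq s.1 s.2 hs).2))
        (mul_mem (hr _ (hpq s0.1 s0.2 hs0).1) (hr _ (hpq s0.1 s0.2 hs0).2))
    have h7 : (r s.1 * r s.2) / (r s0.1 * r s0.2) ≠ 0 :=
      div_ne_zero (mul_ne_zero (hrne _) (hrne _)) (mul_ne_zero (hrne _) (hrne _))
    unfold Rel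
    rw [h1]
    constructor
    · intro h8
      have h9 := mul_mem (inv_mem h6) h8
      rwa [← mul_assoc, inv_mul_cancel₀ h7, one_mul] at h9
    · exact fun h8 => mul_mem h6 h8
  by_cases hex : ∃ s0, z s0 ≠ 0 ∧ Rel (siegel θ) s0 b
  · obtain ⟨s0, hs0, hs0b⟩ := hex
    have hRel : ∀ s, z s ≠ 0 → (Rel (siegel θ) s b ↔ t ^ k s / t ^ k s0 ∈ Qbar) := by
      intro s hs
      rw [← hrelS s s0 hs hs0]
      exact (rel_iff (siegel_ne h) hs0b s).symm
    by_cases htQ : t ∈ Qbar
    · refine Eq.trans (Finset.sum_congr rfl fun s _ => ?_) h0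
      by_cases hs : z s = 0
      · simp [hs]
      · have : siegel θ s / siegel θ b ∈ Qbar :=
          (hRel s hs).2 (div_mem (pow_mem htQ _) (pow_mem htQ _))
        rw [if_pos this]
    · -- the polynomial
      let f : Polynomial Qbar := ∑ s, C (m s) * X ^ k s
      have hf : aeval t f = 0 := by
        have h1 : aeval t f = ∑ s, (m s : ℂ) * t ^ k s := by
          simp only [f, map_sum, map_mul, aeval_C, map_pow, aeval_X]
          rfl
        rw [h1]
        rw [Finset.sum_congr rfl fun s _ => hm s, ← Finset.mul_sum] at h0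
        exact (mul_eq_zero.1 h0).resolve_left hC
      have hf0 : f = 0 := by
        by_contra hne
        exact htQ (mem_Qbar_of_algebraic ⟨f, hne, hf⟩)
      have hcoeff : ∑ s, (if k s0 = k s then m s else 0) = 0 := by
        have h1 := congrArg (fun F => F.coeff (k s0)) hf0
        simp only [f, finsetSum_coeff, coeff_C_mul, coeff_X_pow, coeff_zero] at h1
        refine Eq.trans (Finset.sum_congr rfl fun s _ => ?_) h1
        split_ifs
        · rw [mul_one]
        · rw [mul_zero]
      have hiff : ∀ s, t ^ k s / t ^ k s0 ∈ Qbar ↔ k s0 = k s := by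
        intro s
        constructor
        · intro h1
          by_contra hne
          apply htQ
          refine mem_Qbar_of_algebraic ⟨X ^ k s - C ⟨_, h1⟩ * X ^ k s0, ?_, ?_⟩
          · intro h2
            have h3 := congrArg (fun F => F.coeff (k s)) h2
            simp only [coeff_sub, coeff_X_pow, coeff_C_mul, coeff_zero] at h3
            rw [if_pos trivial, if_neg (Ne.symm hne), mul_zero, sub_zero] at h3
            exact one_ne_zero h3
          · rw [map_sub, map_mul, aeval_C, map_pow, map_pow, aeval_X]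
            change t ^ k s - (t ^ k s / t ^ k s0) * t ^ k s0 = 0
            rw [div_mul_cancel₀ _ (pow_ne_zero _ htne), sub_self]
        · intro h1
          rw [h1, div_self (pow_ne_zero _ htne)]
          exact one_mem _
      have h2 : ∀ s, (if siegel θ s / siegel θ b ∈ Qbar then c s * (siegel θ s * z s) else 0) =
          (θ q ^ 2 / Real.pi * t ^ k s0) * ((if k s0 = k s then m s else 0 : Qbar) : ℂ) := by
        intro s
        by_cases hs : z s = 0
        · have h1 : m s = 0 := by
            simp only [m, hs]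
            simp
          rw [h1, hs]
          simp
        · have h3 := (hRel s hs).trans (hiff s)
          by_cases h4 : k s0 = k s
          · have h5 : siegel θ s / siegel θ b ∈ Qbar := h3.2 h4
            rw [if_pos h5, if_pos h4, hm s, ← h4]
            ring
          · have h5 : ¬ siegel θ s / siegel θ b ∈ Qbar := fun h6 => h4 (h3.1 h6)
            rw [if_neg h5, if_neg h4]
            simp
      rw [Finset.sum_congr rfl fun s _ => h2 s, ← Finset.mul_sum]
      have h3 := congrArg (fun x : Qbar => (x : ℂ)) hcoeff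
      push_cast at h3 ⊢
      rw [h3, mul_zero]
  · push Not at hex
    refine Finset.sum_eq_zero fun s _ => ?_
    by_cases hs : z s = 0
    · simp [hs]
    · have : ¬ siegel θ s / siegel θ b ∈ Qbar := hex s hs
      rw [if_neg this]

theorem hasBiRational_of_products {θ : Fin g → ℂ} (h : ∀ i, θ i ≠ 0)
    (hW : OnlyTrivialRelations θ θ) {z : Fin g × Fin g → ℂ}
    (hz : z ∈ geometric (Fin g × Fin g)) {C : Set (Fin g × Fin g → ℂ)}
    (hC : ∀ c ∈ C, IsProduct c z) {V : Submodule ℂ (Fin g × Fin g → ℂ)}
    (hV : IsDefinedBy (siegel θ) C V) (hzV : z ∈ V) : HasBiRational (siegel θ) V z := by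
  refine hasBiRational_of_comp (siegel_ne h) hz fun b => ?_
  rw [hV]
  intro c hc
  have h1 := splits_of_product h hW (hC c hc) ((hV z).1 hzV c hc) b
  refine Eq.trans (Finset.sum_congr rfl fun s _ => ?_) h1
  change c s * (siegel θ s * (if Rel (siegel θ) s b then z s else 0)) =
    if Rel (siegel θ) s b then c s * (siegel θ s * z s) else 0
  split_ifs
  · rfl
  · ring

end Pool.Agent.Q50.HY
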